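import Pool.Agent.H98.AM.Targets

/-!
# Critical almost Mathieu operator (MP_29bb0a_mp): common part of L1, N1
helper87
-/

open Polynomial
open scoped ComplexConjugate

noncomputable section

namespace Pool.Agent.H87.AM

open Pool.Agent.H98.AM

theorem ev_rpow (C a : ℝ) (ha : 0 < a) : ∃ r0 : ℕ, ∀ r : ℕ, r0 ≤ r → C ≤ (r : ℝ) ^ a := by
  have h := (tendsto_rpow_atTop ha).comp (tendsto_natCast_atTop_atTop (R := ℝ))
  have h2 := h.eventually_ge_atTop C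
  obtain ⟨r0, h0⟩ := Filter.eventually_atTop.1 h2
  exact ⟨r0, fun r hr => h0 r hr⟩

theorem clog_le (r : ℕ) (hr : 1 ≤ r) : (Nat.clog 2 r : ℝ) ≤ 1 + 2 * Real.log r := by
  have hlog : 0 ≤ Real.log r := Real.log_nonneg (by exact_mod_cast hr)
  rcases Nat.lt_or_ge 1 r with h1 | h1
  · have h2 : 2 ^ (Nat.clog 2 r).pred < r := Nat.pow_pred_clog_lt_self (by norm_num) h1
    have h3 : ((2 : ℝ) ^ (Nat.clog 2 r).pred) < r := by exact_mod_cast h2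
    have h4 := Real.log_lt_log (by positivity) h3
    rw [Real.log_pow] at h4
    have h5 : 0 < Nat.clog 2 r := Nat.clog_pos (by norm_num) h1
    have h6 : (((Nat.clog 2 r).pred : ℕ) : ℝ) = (Nat.clog 2 r : ℝ) - 1 := by
      rw [Nat.pred_eq_sub_one, Nat.cast_sub h5]; simp
    rw [h6] at h4
    have h7 := Real.log_two_gt_d9
    have h8 : (1 : ℝ) ≤ Nat.clog 2 r := by exact_mod_cast h5
    nlinarith
  · have : r = 1 := le_antisymm h1 hr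
    subst this
    simp

/-- number of dyadic scales -/
def kk (r : ℕ) : ℕ := 4 + 3 * Nat.clog 2 r

theorem kk_pow (r : ℕ) (hr : 1 ≤ r) {d : ℝ} (hd : (r : ℝ) ^ (-3 : ℝ) ≤ d) :
    16 ≤ 2 ^ kk r * d := by
  have h1 : r ≤ 2 ^ Nat.clog 2 r := Nat.le_pow_clog (by norm_num) r
  have h2 : (r : ℝ) ≤ 2 ^ Nat.clog 2 r := by exact_mod_cast h1
  have hr' : (0 : ℝ) < r := by exact_mod_cast hr
  have h3 : (2 : ℝ) ^ kk r = 16 * (2 ^ Nat.clog 2 r) ^ 3 := by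
    unfold kk
    rw [pow_add, mul_comm 3, pow_mul]
    norm_num
  have h4 : (r : ℝ) ^ (-3 : ℝ) = 1 / (r : ℝ) ^ 3 := by
    rw [Real.rpow_neg hr'.le, one_div]
    norm_num
  have h5 : (r : ℝ) ^ 3 ≤ (2 ^ Nat.clog 2 r) ^ 3 := pow_le_pow_left₀ hr'.le h2 3
  rw [h4] at hd
  rw [h3]
  have h6 : (r : ℝ) ^ 3 * (1 / (r : ℝ) ^ 3) = 1 := by field_simp
  have h7 : 1 ≤ (r : ℝ) ^ 3 * d := by
    rw [← h6]
    exact mul_le_mul_of_nonneg_left hd (by positivity)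
  have hd0 : 0 ≤ d := le_trans (by positivity) hd
  have h8 : (r : ℝ) ^ 3 * d ≤ (2 ^ Nat.clog 2 r) ^ 3 * d := mul_le_mul_of_nonneg_right h5 hd0
  nlinarith

theorem ev_log (C a : ℝ) (ha : 0 < a) : ∃ r0 : ℕ, ∀ r : ℕ, r0 ≤ r →
    C * (1 + 2 * (kk r : ℝ)) ≤ (r : ℝ) ^ a := by
  obtain ⟨r0, h0⟩ := ev_rpow (|C| * (15 + 24 / a)) (a / 2) (by positivity)
  refine ⟨max r0 1, fun r hr => ?_⟩
  have hr0 := h0 r (le_trans (le_max_left _ _) hr)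
  have hr1 : 1 ≤ r := le_trans (le_max_right _ _) hr
  have hr' : (1 : ℝ) ≤ r := by exact_mod_cast hr1
  have h1 := clog_le r hr1
  have h2 := Real.log_le_rpow_div (x := (r : ℝ)) (ε := a / 2) (by positivity) (by positivity)
  have h3 : (1 : ℝ) ≤ (r : ℝ) ^ (a / 2) := Real.one_le_rpow hr' (by positivity)
  have h4 : (kk r : ℝ) = 4 + 3 * (Nat.clog 2 r : ℝ) := by unfold kk; push_cast; ring
  have h5 : 1 + 2 * (kk r : ℝ) ≤ (15 + 24 / a) * (r : ℝ) ^ (a / 2) := by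
    rw [h4]
    have h6 : (r : ℝ) ^ (a / 2) / (a / 2) = 2 / a * (r : ℝ) ^ (a / 2) := by field_simp
    rw [h6] at h2
    have h7 : (15 + 24 / a) * (r : ℝ) ^ (a / 2)
        = 15 * (r : ℝ) ^ (a / 2) + 12 * (2 / a * (r : ℝ) ^ (a / 2)) := by ring
    rw [h7]
    nlinarith
  have h8 : (r : ℝ) ^ a = (r : ℝ) ^ (a / 2) * (r : ℝ) ^ (a / 2) := by
    rw [← Real.rpow_add (by linarith)]; congr 1; ring
  rw [h8]
  have h9 : 0 ≤ 1 + 2 * (kk r : ℝ) := by positivity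
  calc C * (1 + 2 * (kk r : ℝ)) ≤ |C| * (1 + 2 * (kk r : ℝ)) :=
        mul_le_mul_of_nonneg_right (le_abs_self C) h9
    _ ≤ |C| * ((15 + 24 / a) * (r : ℝ) ^ (a / 2)) := mul_le_mul_of_nonneg_left h5 (abs_nonneg _)
    _ = (|C| * (15 + 24 / a)) * (r : ℝ) ^ (a / 2) := by ring
    _ ≤ (r : ℝ) ^ (a / 2) * (r : ℝ) ^ (a / 2) := mul_le_mul_of_nonneg_right hr0 (by positivity)

section proj
variable {𝓗 : Type} [NormedAddCommGroup 𝓗] [InnerProductSpace ℂ 𝓗] {ι : Type} [Fintype ι]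

theorem pj_zero (u : OrthonormalBasis ι ℂ 𝓗) (ev : ι → ℝ) (S : Set ℝ) (h : ∀ i, ev i ∉ S)
    (f : 𝓗) : pj u ev S f = 0 := by
  unfold pj
  refine Finset.sum_eq_zero fun i _ => ?_
  rw [if_neg (h i)]

theorem norm_wout (hG1 : T_G1) (T : 𝓗 →ₗ[ℂ] 𝓗) (u : OrthonormalBasis ι ℂ 𝓗) (ev : ι → ℝ)
    (hu : IsEB T u ev) (E d : ℝ) (h : ∀ i, d < |ev i - E|) (f : 𝓗) :
    pj u ev (wout E d) f = f := by
  have hg := hG1 𝓗 ι T u ev hu
  have h6 := hg.2.2.2.2.2.1 (win E d) f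
  have h10 := hg.2.2.2.2.2.2.2.2.2 E d
  rw [h10, pj_zero u ev (win E d) (fun i hi => not_le.2 (h i) hi) f, zero_add] at h6
  exact h6

end proj

theorem norm_ex (t : ℝ) : ‖ex t‖ = 1 := by
  unfold ex
  have : (2 * Real.pi * t * Complex.I : ℂ) = ((2 * Real.pi * t : ℝ) : ℂ) * Complex.I := by
    push_cast; ring
  rw [this, Complex.norm_exp_ofReal_mul_I]

theorem norm_one_sub_ex (t : ℝ) : ‖1 - ex t‖ ≤ 2 := by
  have := norm_sub_le (1 : ℂ) (ex t)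
  rw [norm_ex, norm_one] at this
  linarith

theorem vh_triv (hB4 : T_B4) (hG1 : T_G1) {N : ℕ} [NeZero N] {ι : Type} [Fintype ι] (β θ : ℝ)
    (T : Rg N →ₗ[ℂ] Rg N) (u : OrthonormalBasis ι ℂ (Rg N)) (ev : ι → ℝ) (hu : IsEB T u ev)
    (E D : ℝ) : VH β θ u ev E D 2 := by
  intro f
  have hg := (hG1 _ ι T u ev hu).2.2.2.2.1 (win E D)
  have hle : ∀ g : Rg N, ‖pj u ev (win E D) g‖ ≤ ‖g‖ := by
    intro g
    have := hg g
    have h0 : 0 ≤ ‖pj u ev (win E D)ᶜ g‖ ^ 2 := by positivity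
    exact abs_le_of_sq_le_sq' (by linarith) (norm_nonneg _) |>.2
  have hb := (hB4 N (fun n => Complex.I * ub β θ N n)).2 1 (by
    intro n
    unfold ub
    rw [norm_mul, norm_neg, norm_ex]
    simp)
  have h1 := hb.1 (pj u ev (win E D) f)
  refine (hle _).trans ?_
  unfold Gam
  refine h1.trans ?_
  have := hle f
  linarith

theorem omh (hF4 : T_F4) (hE4 : T_E4) {p : ℤ} {s M : ℕ} [NeZero s] [NeZero M] {θ : ℝ}
    {mu : ℝ → ℝ} {ι : Type} [Fintype ι] {u : OrthonormalBasis ι ℂ (Rg (M * s))} {ev : ι → ℝ}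
    (hc : IsCoprime p (s : ℤ)) (hs : 3 ≤ s) (hu : IsEB (Tr (p / s) θ (M * s)) u ev)
    (hmu : ∀ e ∈ rts (Dl p s), hw p s θ e ≤ mu e) (hmu0 : ∀ e, 0 ≤ mu e)
    (hr4 : ∀ e ∈ rts (Dl p s), |e| ≤ 4) {E e0 R T Ω : ℝ} (hE : |E| ≤ 5) (he0 : 0 < e0)
    (hR : 0 ≤ R) (hT : 0 ≤ T) (k : ℕ) (hk : 16 ≤ 2 ^ k * e0)
    (hΩ : 2 * R * (T * (1 + 2 * k)) ≤ Ω)
    (H : ∀ d, e0 ≤ d → (∃ i, |ev i - E| ≤ d) →
      (∀ t : ℝ, |t| ≤ 2 * ‖1 - ex (s * θ)‖ → ‖aeval ((E : ℂ) + d * Complex.I) (Dl p s)‖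
        ≤ R * ‖aeval ((E : ℂ) + d * Complex.I) (Dl p s) - t‖) ∧
      (∀ d', d ≤ d' → bm (Dl p s) mu E d' ≤ T * d')) :
    OmH s u ev E e0 Ω := by
  have hΩ0 : 0 ≤ Ω := le_trans (by positivity) hΩ
  intro d hd f
  have hd0 : 0 < d := he0.trans_le hd
  by_cases hne : ∃ i, |ev i - E| ≤ d
  · obtain ⟨h1, h2⟩ := H d hd hne
    have h3 := hF4 p s M θ mu ι u ev hc hs hu hmu E d R hd0 hR h1 f
    have h4 := hE4 (Dl p s) mu E d T k hmu0 hr4 hE hd0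
      (hk.trans (mul_le_mul_of_nonneg_left hd (by positivity))) h2
    refine h3.trans ?_
    refine mul_le_mul_of_nonneg_right ?_ (by positivity)
    calc 2 * d * R * (∑ e ∈ rts (Dl p s), mu e / ‖(E : ℂ) + d * Complex.I - e‖)
        ≤ 2 * d * R * (T * (1 + 2 * k)) := mul_le_mul_of_nonneg_left h4 (by positivity)
      _ = (2 * R * (T * (1 + 2 * k))) * d := by ring
      _ ≤ Ω * d := mul_le_mul_of_nonneg_right hΩ hd0.le
  · rw [pj_zero u ev (win E d) (fun i hi => hne ⟨i, hi⟩)]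
    have : 0 ≤ Ω * d * ‖f‖ ^ 2 := by positivity
    simpa using this

theorem adj_flux {C0 : ℝ} {p : ℤ} {s : ℕ} {p' : ℤ} {r : ℕ} (hA : Adj C0 p s p' r) (hs : 1 ≤ s)
    (hr : 1 ≤ r) : |(p' / r : ℝ) - p / s| ≤ C0 / (s : ℝ) ^ 3 := by
  have hs' : (0 : ℝ) < s := by exact_mod_cast hs
  have hr' : (0 : ℝ) < r := by exact_mod_cast hr
  have h1 : (p' / r : ℝ) - p / s = -((p * r - p' * s : ℤ) : ℝ) / (s * r) := by
    push_cast
    field_simp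
    ring
  have h2 : |((p * r - p' * s : ℤ) : ℝ)| = 1 := by
    rw [← Int.cast_abs, hA.det]; simp
  rw [h1, abs_div, abs_neg, h2, abs_of_pos (by positivity : (0 : ℝ) < s * r)]
  rw [div_le_div_iff₀ (by positivity) (by positivity)]
  have h3 := hA.low
  calc 1 * (s : ℝ) ^ 3 = s * (s : ℝ) ^ 2 := by ring
    _ ≤ s * (C0 * r) := mul_le_mul_of_nonneg_left h3 hs'.le
    _ = C0 * (s * r) := by ring

theorem lop_ext (hF1 : T_F1) {p : ℤ} {q : ℕ} [NeZero q] {ι : Type} [Fintype ι]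
    {u : OrthonormalBasis ι ℂ (Rg q)} {ev : ι → ℝ} (hu : IsEB (Fi p q 0 1) u ev) (i : ι) (n : ℤ) :
    lop (p / q) 0 (ext q 1 (u i)) n = ev i * ext q 1 (u i) n := by
  rw [hF1 p q 0 1 (u i) n (by simp), hu i]
  unfold Pool.Agent.H98.AM.ext
  simp

theorem lop_shift (hF1 : T_F1) (hH7 : T_H7) {p : ℤ} {q : ℕ} [NeZero q] {ι : Type} [Fintype ι]
    {u : OrthonormalBasis ι ℂ (Rg q)} {ev : ι → ℝ} (hu : IsEB (Fi p q 0 1) u ev) (i : ι)
    (a : ℤ) (θ : ℝ) (m : ℤ) (h : (a : ℝ) * (p / q) = θ + m) (n : ℤ) :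
    lop (p / q) θ (fun k => ext q 1 (u i) (a + k)) n
      = ev i * (fun k => ext q 1 (u i) (a + k)) n := by
  rw [hH7 (p / q) 0 θ a m (by rw [add_zero]; exact h) (ext q 1 (u i)) n, lop_ext hF1 hu i]

/-- the sum over all centres is contradictory when each local norm is small -/
theorem sum_contra (hH8 : T_H8) {s L J q N : ℕ} [NeZero q] [NeZero N] (f : Rg q) (hf : ‖f‖ = 1)
    (o : ℕ → ℕ) (hs : 1 ≤ s) (hL : 1 ≤ L) (ho : ∀ a, o a < s) (hN : 6 * L * s ≤ N)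
    (ε0 : ℝ) (hε : 4 * (J + 5) * ε0 ^ 2 ≤ 1) (S : Finset ℕ) (hS : S ⊆ Finset.range q)
    (hbad : ∑ a ∈ S, ‖(cut s L 0 (fun k => ext q 1 f (((a + o a : ℕ) : ℤ) + k)) : Rg N)‖ ^ 2
      ≤ (L * s : ℝ))
    (h : ∀ a ∈ Finset.range q \ S,
      ‖(cut s L 0 (fun k => ext q 1 f (((a + o a : ℕ) : ℤ) + k)) : Rg N)‖
      ≤ ε0 * ‖(cut s L (J + 2) (fun k => ext q 1 f (((a + o a : ℕ) : ℤ) + k)) : Rg N)‖)
    : False := by
  obtain ⟨h1, -⟩ := hH8 s L 0 q N 1 f o hs hL (by simp) ho hN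
  obtain ⟨-, h2⟩ := hH8 s L (J + 2) q N 1 f o hs hL (by simp) ho hN
  rw [hf] at h1 h2
  have hLs : (0 : ℝ) < (L : ℝ) * s := by
    have h3 : (0 : ℝ) < L := by exact_mod_cast hL
    have h4 : (0 : ℝ) < s := by exact_mod_cast hs
    positivity
  rw [← Finset.sum_sdiff hS] at h1
  have h3 : ∑ a ∈ Finset.range q \ S,
      ‖(cut s L 0 (fun k => ext q 1 f (((a + o a : ℕ) : ℤ) + k)) : Rg N)‖ ^ 2
      ≤ ∑ a ∈ Finset.range q \ S, ε0 ^ 2 *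
        ‖(cut s L (J + 2) (fun k => ext q 1 f (((a + o a : ℕ) : ℤ) + k)) : Rg N)‖ ^ 2 := by
    refine Finset.sum_le_sum fun a ha => ?_
    have := h a ha
    rw [← mul_pow]
    exact pow_le_pow_left₀ (norm_nonneg _) this 2
  have h4 : ∑ a ∈ Finset.range q \ S, ε0 ^ 2 *
        ‖(cut s L (J + 2) (fun k => ext q 1 f (((a + o a : ℕ) : ℤ) + k)) : Rg N)‖ ^ 2
      ≤ ∑ a ∈ Finset.range q, ε0 ^ 2 *
        ‖(cut s L (J + 2) (fun k => ext q 1 f (((a + o a : ℕ) : ℤ) + k)) : Rg N)‖ ^ 2 :=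
    Finset.sum_le_sum_of_subset_of_nonneg Finset.sdiff_subset (fun _ _ _ => by positivity)
  rw [← Finset.mul_sum] at h3
  rw [← Finset.mul_sum, ← Finset.mul_sum] at h4
  have h5 := mul_le_mul_of_nonneg_left h2 (sq_nonneg ε0)
  push_cast at h5 h1
  have h6 : ε0 ^ 2 * (2 * ((J : ℝ) + 2 + 3) * L * s * 1 ^ 2)
      = (4 * (J + 5) * ε0 ^ 2) * (L * s) / 2 := by ring
  have h7 : (4 * (J + 5) * ε0 ^ 2) * ((L : ℝ) * s) ≤ 1 * (L * s) :=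
    mul_le_mul_of_nonneg_right hε hLs.le
  push_cast at h3 h4 hbad
  linarith

end Pool.Agent.H87.AM
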