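import Pool.Agent.H87.AM.Common

/-!
# Critical almost Mathieu operator (MP_29bb0a_mp): module L1
helper87
-/

open Polynomial
open scoped ComplexConjugate

noncomputable section

namespace Pool.Agent.H87.AM

open Pool.Agent.H98.AM

/-- every root of the discriminant is an eigenvalue of the fibre `(0, 1)` -/
theorem root_ev (hC1 : T_C1) {p : ℤ} {q : ℕ} [NeZero q] (hc : IsCoprime p (q : ℤ)) (hq : 3 ≤ q)
    {ι : Type} [Fintype ι] {u : OrthonormalBasis ι ℂ (Rg q)} {ev : ι → ℝ}
    (hu : IsEB (Fi p q 0 1) u ev) {E : ℝ} (hE : E ∈ rts (Dl p q)) : ∃ i, ev i = E := by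
  have h1 := hC1 p q 0 1 ι u ev hc hq (by simp) hu (E : ℂ)
  have h2 : (Dl p q).eval E = 0 := by
    unfold rts at hE
    rw [Multiset.mem_toFinset] at hE
    exact (Polynomial.mem_roots'.1 hE).2
  have h3 : aeval (E : ℂ) (Dl p q) = 0 := by
    have := Polynomial.aeval_algebraMap_apply ℂ E (Dl p q)
    rw [Polynomial.aeval_def, Polynomial.eval₂_eq_eval_map] at this
    simp only [Complex.coe_algebraMap] at this
    rw [Polynomial.aeval_def, Polynomial.eval₂_eq_eval_map, this]
    rw [Polynomial.coe_aeval_eq_eval, h2]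
    simp
  have h4 : tt q 0 1 = 0 := by
    unfold tt ex
    simp
  rw [h3, h4] at h1
  simp only [Complex.ofReal_zero, sub_zero] at h1
  obtain ⟨i, -, hi⟩ := Finset.prod_eq_zero_iff.1 h1
  refine ⟨i, ?_⟩
  have : (E : ℂ) = ev i := sub_eq_zero.1 hi
  exact (Complex.ofReal_injective this).symm

theorem l1 (hB4 : T_B4) (hC1 : T_C1) (hC5 : T_C5) (hC6 : T_C6) (hD3 : T_D3) (hD7 : T_D7)
    (hE4 : T_E4) (hF1 : T_F1) (hF4 : T_F4) (hF7 : T_F7) (hG1 : T_G1) (hH6 : T_H6) (hH7 : T_H7)
    (hH8 : T_H8) (hJ1 : T_J1) : T_L1 := by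
  intro C0 c hC0 hc hc1
  obtain ⟨J, hJ⟩ := hJ1 C0 c hC0 hc hc1
  obtain ⟨s0, hs0⟩ := hJ (1 / (2 * Real.sqrt (J + 5))) (by positivity)
  obtain ⟨s1, hs1⟩ := hH6 C0 hC0
  obtain ⟨s2, hs2⟩ := ev_rpow 2 (c / 4) (by positivity)
  obtain ⟨s3, hs3⟩ := ev_log 2200 (c / 2) (by positivity)
  refine ⟨max (max s0 s1) (max (max s2 s3) (max 3 ⌈3 * C0⌉₊)), ?_⟩
  intro p r p' q mu hA hr hmu0 hmu E hE hlight
  have hr0 : s0 ≤ r := le_trans (le_trans (le_max_left _ _) (le_max_left _ _)) hr
  have hr1 : s1 ≤ r := le_trans (le_trans (le_max_right _ _) (le_max_left _ _)) hr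
  have hr2 : s2 ≤ r := le_trans (le_trans (le_trans (le_max_left _ _) (le_max_left _ _))
    (le_max_right _ _)) hr
  have hr3 : s3 ≤ r := le_trans (le_trans (le_trans (le_max_right _ _) (le_max_left _ _))
    (le_max_right _ _)) hr
  have hr4 : 3 ≤ r := le_trans (le_trans (le_trans (le_max_left _ _) (le_max_right _ _))
    (le_max_right _ _)) hr
  have hr5 : ⌈3 * C0⌉₊ ≤ r := le_trans (le_trans (le_trans (le_max_right _ _)
    (le_max_right _ _)) (le_max_right _ _)) hr
  have hrpos : (0 : ℝ) < r := by positivity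
  have hr1' : (1 : ℝ) ≤ r := by exact_mod_cast (by omega : 1 ≤ r)
  have hrC : 3 * C0 ≤ r := (Nat.le_ceil _).trans (by exact_mod_cast hr5)
  have hq3 : 3 ≤ q := by
    have h1 := hA.low
    have h2 : 3 * C0 ≤ C0 * q := by nlinarith
    have h3 : (3 : ℝ) ≤ q := by
      by_contra hlt
      push Not at hlt
      nlinarith
    exact_mod_cast h3
  haveI : NeZero r := ⟨by omega⟩
  haveI : NeZero q := ⟨by omega⟩
  by_contra hcon
  push Not at hcon
  have hdisc := hC5 p r hA.cop hr4
  obtain ⟨-, hroots4, -, hompos⟩ := hC6 p r hA.cop hr4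
  have hE4' : |E| ≤ 4 := (hC6 p' q hA.cop' hq3).2.1 E hE
  -- eigenbasis of the high level
  obtain ⟨⟨u, ev, hu⟩, -⟩ := hB4 q (fb p' q 0 1)
  replace hu : IsEB (Fi p' q 0 1) u ev := hu
  obtain ⟨i, hi⟩ := root_ev hC1 hA.cop' hq3 hu hE
  -- phases
  have hflux := adj_flux hA (by omega) (by omega)
  choose o θ m ho hθ hphase using fun a : ℕ => hs1 p r (p' / q) 0 hr1 hA.cop hflux (a : ℤ)
  set L : ℕ := ⌈(r : ℝ) ^ c⌉₊ with hL
  have hL1 : 1 ≤ L := by
    rw [hL]
    exact Nat.one_le_ceil_iff.2 (by positivity)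
  set M : ℕ := 2 * (J + 6) * L with hM
  haveI : NeZero M := ⟨by rw [hM]; positivity⟩
  -- the scale
  set b : ℝ := (r : ℝ) ^ (-2 + 2 * c) with hb
  have hbpos : 0 < b := by positivity
  set e0 : ℝ := (r : ℝ) ^ (-2 + 3 * c / 2) with he0
  have he0pos : 0 < e0 := by positivity
  have he0b : e0 ≤ b := Real.rpow_le_rpow_of_exponent_le hr1' (by linarith)
  -- points of the spectrum of the ring near E force d to be large
  have hfar : ∀ (θ : ℝ) (ι : Type) [Fintype ι] (w : OrthonormalBasis ι ℂ (Rg (M * r)))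
      (ew : ι → ℝ), IsEB (Tr (p / r) θ (M * r)) w ew → ∀ (j : ι) (d : ℝ), |ew j - E| ≤ d →
      33 * b ≤ d ∧ ∃ e, (Dl p r).eval e = 0 ∧ 3 / 4 * |E - e| ≤ d ∧
        3 / 4 * om (Dl p r) e ≤ d := by
    intro θ ι _ w ew hw j d hd
    obtain ⟨h1, -⟩ := hF7 p r M θ ι w ew hA.cop hr4 hw j
    obtain ⟨e, he, h2⟩ := hD3 r (Dl p r) hdisc (by omega) (ew j) h1
    have hem : e ∈ rts (Dl p r) := by
      unfold rts
      rw [Multiset.mem_toFinset, Polynomial.mem_roots']
      exact ⟨hdisc.mon.ne_zero, he⟩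
    have h3 := hcon e hem
    have h4 := hompos e hem
    have h5 : |E - e| ≤ |ew j - E| + |ew j - e| := by
      have := abs_sub_le E (ew j) e
      rw [abs_sub_comm E (ew j)] at this
      exact this
    refine ⟨by linarith, e, he, by linarith, by linarith⟩
  -- the local comparison lemma, for every centre
  have hloc : ∀ a : ℕ,
      ‖(cut r L 0 (fun k => ext q 1 (u i) (((a + o a : ℕ) : ℤ) + k)) : Rg (M * r))‖
      ≤ (1 / (2 * Real.sqrt (J + 5))) *
        ‖(cut r L (J + 2) (fun k => ext q 1 (u i) (((a + o a : ℕ) : ℤ) + k)) : Rg (M * r))‖ := by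
    intro a
    obtain ⟨⟨w, ew, hw⟩, -⟩ := hB4 (M * r) (rb (p / r) (θ a) (M * r))
    replace hw : IsEB (Tr (p / r) (θ a) (M * r)) w ew := hw
    have hphase' : (((a + o a : ℕ) : ℤ) : ℝ) * (p' / q) = θ a + m a := by
      have := hphase a
      push_cast at this ⊢
      linarith
    have hlop := lop_shift hF1 hH7 hu i ((a + o a : ℕ) : ℤ) (θ a) (m a) hphase'
    have hcmp := hs0 p r L M (p' / q) (θ a) E E
      (fun k => ext q 1 (u i) (((a + o a : ℕ) : ℤ) + k)) (Fin (M * r)) w ew e0 16 2 hr0 hA.cop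
      hL hM hflux (hθ a) (by linarith) (by rw [← hi]; exact hlop) hw
      (Real.rpow_le_rpow_of_exponent_le hr1' (by linarith))
      (by
        rw [he0, one_div, ← Real.rpow_neg_one]
        exact Real.rpow_le_rpow_of_exponent_le hr1' (by linarith))
      (by
        have : (r : ℝ) ^ (-(4 / 5) : ℝ) ≤ 1 := Real.rpow_le_one_of_one_le_of_nonpos hr1'
          (by norm_num)
        linarith)
      le_rfl (by norm_num) le_rfl
      (by
        rw [he0, ← Real.rpow_add hrpos]
        have h1 := hs2 r hr2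
        have h2 : (r : ℝ) ^ (-2 + 3 * c / 2 + -(c / 4)) = (r : ℝ) ^ (-2 + c) * r ^ (c / 4) := by
          rw [← Real.rpow_add hrpos]; congr 1; ring
        rw [h2]
        exact mul_le_mul_of_nonneg_left h1 (by positivity))
      (vh_triv hB4 hG1 (p / r) (θ a) _ w ew hw E 16)
      (by
        refine omh hF4 hE4 (R := 1100) (T := (r : ℝ) ^ (1 + c / 4)) hA.cop hr4 hw
          (hmu (θ a) (hθ a)) hmu0 hroots4 (by linarith) he0pos (by norm_num) (by positivity)
          (kk r) (kk_pow r (by omega) (Real.rpow_le_rpow_of_exponent_le hr1' (by linarith))) ?_ ?_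
        · have h1 := hs3 r hr3
          have h2 : (r : ℝ) ^ (1 + 3 * c / 4) = (r : ℝ) ^ (1 + c / 4) * r ^ (c / 2) := by
            rw [← Real.rpow_add hrpos]; congr 1; ring
          rw [h2]
          have h3 := mul_le_mul_of_nonneg_left h1 (by positivity : 0 ≤ (r : ℝ) ^ (1 + c / 4))
          linarith
        · rintro d hd ⟨j, hj⟩
          obtain ⟨h1, e, he, h2, h3⟩ := hfar (θ a) (Fin (M * r)) w ew hw j d hj
          have hd0 : 0 < d := he0pos.trans_le hd
          refine ⟨fun t ht => ?_, fun d' hd' => hlight d' (by linarith)⟩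
          have h4 : |t| ≤ 4 := ht.trans (by
            have := norm_one_sub_ex (r * θ a)
            linarith)
          have h5 := hD7 r (Dl p r) hdisc (by omega) e he E d (3 / 4) t (by norm_num)
            (by norm_num) hd0 h2 h3 h4
          have h6 : 0 ≤ ‖aeval ((E : ℂ) + d * Complex.I) (Dl p r) - t‖ := norm_nonneg _
          linarith)
      (by rw [sub_self, abs_zero]; positivity) (by rw [sub_self, abs_zero]; positivity)
    rw [norm_wout hG1 _ w ew hw E e0 (fun j => by
      by_contra hlt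
      push Not at hlt
      have := (hfar (θ a) (Fin (M * r)) w ew hw j e0 hlt).1
      linarith)] at hcmp
    exact hcmp
  -- sum over the centres
  refine sum_contra hH8 (s := r) (L := L) (J := J) (q := q) (N := M * r) (u i)
    (u.orthonormal.1 i) o (by omega) hL1 ho ?_ (1 / (2 * Real.sqrt (J + 5))) ?_ ∅
    (Finset.empty_subset _) ?_ (fun a _ => hloc a)
  · rw [hM]
    nlinarith [Nat.zero_le (J * L * r), Nat.zero_le (L * r)]
  · have h1 : Real.sqrt ((J : ℝ) + 5) ^ 2 = J + 5 := Real.sq_sqrt (by positivity)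
    rw [div_pow, mul_pow, h1]
    field_simp
    norm_num
  · rw [Finset.sum_empty]
    positivity

end Pool.Agent.H87.AM
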