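import Pool.Agent.H87.AM.Common

/-!
# Critical almost Mathieu operator (MP_29bb0a_mp): module N1
helper87
-/

open Polynomial
open scoped ComplexConjugate

noncomputable section

namespace Pool.Agent.H87.AM

open Pool.Agent.H98.AM

/-- the norms of the cut-off functions do not depend on the ring -/
theorem cut_norm_eq (hH10 : T_H10) (s L j N N' : ℕ) [NeZero N] [NeZero N'] (ψ : ℤ → ℂ)
    (hs : 1 ≤ s) (hL : 1 ≤ L) (h : 2 * (j + 3) * L * s ≤ N) (h' : 2 * (j + 3) * L * s ≤ N') :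
    ‖(cut s L j ψ : Rg N)‖ ^ 2 = ‖(cut s L j ψ : Rg N')‖ ^ 2 := by
  rw [hH10 s L j N ψ hs hL h, hH10 s L j N' ψ hs hL h']

theorem n1 (hB4 : T_B4) (hC5 : T_C5) (hC6 : T_C6) (hD8 : T_D8)
    (hE4 : T_E4) (hF1 : T_F1) (hF4 : T_F4) (hF7 : T_F7) (hG1 : T_G1) (hH7 : T_H7)
    (hH8 : T_H8) (hH10 : T_H10) (hJ1 : T_J1) (hK6 : T_K6) : T_N1 := by
  intro C0 hC0
  obtain ⟨J, hJ⟩ := hJ1 C0 (1 / 50) hC0 (by norm_num) (by norm_num)
  obtain ⟨s0, hs0⟩ := hJ (1 / (2 * Real.sqrt (J + 5))) (by positivity)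
  obtain ⟨K6, hK61, hK6'⟩ := hK6 C0 hC0
  obtain ⟨s3, hs3⟩ := ev_log 2 (3 / 500) (by norm_num)
  -- `K6 y^(-1/4) <= r^(-9/200)` etc.
  obtain ⟨y1, hy1⟩ := ev_rpow (K6 * C0 ^ (27 / 200 : ℝ)) (7 / 100) (by norm_num)
  obtain ⟨y2, hy2⟩ := ev_rpow (C0 ^ (4 / 5 : ℝ)) (1 / 10) (by norm_num)
  obtain ⟨y3, hy3⟩ := ev_rpow K6 (1 / 4) (by norm_num)
  set R0 : ℕ := max (max s0 s3) (max (max y1 y2) (max y3 3)) with hR0
  refine ⟨max K6 (C0 ^ 2 * (R0 : ℝ) + 3 * C0), le_trans hK61 (le_max_left _ _), ?_⟩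
  intro py y ps s pr r pq q L N _ _ ι _ u ev mu o θ m hA1 hA2 hA3 hKy hu hmu0 hmu hL hN hph i
    hNH hlight hbadsum
  by_contra hcon
  push Not at hcon
  have hKy1 : K6 ≤ y := (le_max_left _ _).trans hKy
  have hKy2 : C0 ^ 2 * (R0 : ℝ) + 3 * C0 ≤ y := (le_max_right _ _).trans hKy
  have hR00 : (0 : ℝ) ≤ R0 := by positivity
  have hR03 : (3 : ℝ) ≤ R0 := by
    have : 3 ≤ R0 := le_trans (le_trans (le_max_right _ _) (le_max_right _ _)) (le_max_right _ _)
    exact_mod_cast this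
  have hyR : (R0 : ℝ) ≤ y := by
    have h1 : (1 : ℝ) ≤ C0 ^ 2 := one_le_pow₀ hC0
    nlinarith
  have hy3' : (3 : ℝ) ≤ y := hR03.trans hyR
  have hypos : (0 : ℝ) < y := by linarith
  -- `y <= s`
  have hys : (y : ℝ) ≤ s := by
    have h1 := hA1.low
    have h2 : C0 ≤ y := by nlinarith [mul_nonneg (sq_nonneg C0) hR00]
    have h3 : C0 * (y : ℝ) ≤ (y : ℝ) ^ 2 := by nlinarith
    exact le_of_mul_le_mul_left (h3.trans h1) (by linarith)
  have hsr : (s : ℝ) ≤ r := by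
    have h1 := hA2.low
    have h2 : C0 ≤ s := by nlinarith [mul_nonneg (sq_nonneg C0) hR00]
    have h3 : C0 * (s : ℝ) ≤ (s : ℝ) ^ 2 := by nlinarith
    exact le_of_mul_le_mul_left (h3.trans h1) (by linarith)
  have hspos : (0 : ℝ) < s := by linarith
  have hrpos : (0 : ℝ) < r := by linarith
  have hr1' : (1 : ℝ) ≤ r := by linarith
  have hs1' : (1 : ℝ) ≤ s := by linarith
  have hR0s : R0 ≤ s := by exact_mod_cast hyR.trans hys
  have hR0r : R0 ≤ r := by exact_mod_cast (hyR.trans hys).trans hsr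
  have hR0y : R0 ≤ y := by exact_mod_cast hyR
  have hr0 : s0 ≤ r := le_trans (le_trans (le_max_left _ _) (le_max_left _ _)) hR0r
  have hr3 : s3 ≤ r := le_trans (le_trans (le_max_right _ _) (le_max_left _ _)) hR0r
  have hyy1 : y1 ≤ y := le_trans (le_trans (le_trans (le_max_left _ _) (le_max_left _ _))
    (le_max_right _ _)) hR0y
  have hsy2 : y2 ≤ s := le_trans (le_trans (le_trans (le_max_right _ _) (le_max_left _ _))
    (le_max_right _ _)) hR0s
  have hyy3 : y3 ≤ y := le_trans (le_trans (le_trans (le_max_left _ _) (le_max_right _ _))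
    (le_max_right _ _)) hR0y
  have hr4 : 3 ≤ r := le_trans (le_trans (le_trans (le_max_right _ _) (le_max_right _ _))
    (le_max_right _ _)) hR0r
  have hs4 : 3 ≤ s := le_trans (le_trans (le_trans (le_max_right _ _) (le_max_right _ _))
    (le_max_right _ _)) hR0s
  have hq1 : 1 ≤ q := Nat.one_le_iff_ne_zero.2 (NeZero.ne q)
  have hrq : 3 ≤ q := by
    have h1 := hA3.low
    have h2 : 3 * C0 ≤ r := by nlinarith [mul_nonneg (sq_nonneg C0) hR00]
    have h3 : 3 * C0 ≤ C0 * q := by nlinarith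
    have h4 : (3 : ℝ) ≤ q := by
      by_contra hlt
      push Not at hlt
      nlinarith
    exact_mod_cast h4
  haveI : NeZero r := ⟨by omega⟩
  have hdisc := hC5 pr r hA3.cop hr4
  obtain ⟨-, hroots4, -, hompos⟩ := hC6 pr r hA3.cop hr4
  -- the energy
  set E : ℝ := ev i with hEdef
  set e1 : ℝ := (r : ℝ) ^ (-2 - 1 / 50 : ℝ) with he1
  have he1pos : 0 < e1 := by positivity
  have hEabs : |E| ≤ 4 := by
    have h1 := (hB4 q (fb pq q 0 1)).2 2 (by
      intro n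
      unfold fb bnd
      rw [norm_mul]
      have h2 : ‖(if n = 0 then (1 : ℂ) else 1)‖ = 1 := by simp
      rw [h2, one_mul]
      exact norm_one_sub_ex _)
    have h2 := h1.2 ι u ev hu i
    linarith
  have hL1 : 1 ≤ L := by
    rw [hL]
    exact Nat.one_le_ceil_iff.2 (by positivity)
  set M : ℕ := 2 * (J + 6) * L with hM
  haveI : NeZero M := ⟨by rw [hM]; positivity⟩
  have hflux := adj_flux hA3 (by omega) (by omega)
  -- `v = K6 y^(-1/4)`
  set v : ℝ := K6 * (y : ℝ) ^ (-(1 / 4) : ℝ) with hv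
  have hv0 : 0 ≤ v := by positivity
  have hv1 : v ≤ 2 := by
    have h1 := hy3 y hyy3
    rw [hv, Real.rpow_neg hypos.le]
    have h2 : (0 : ℝ) < (y : ℝ) ^ (1 / 4 : ℝ) := by positivity
    rw [← div_eq_mul_inv, div_le_iff₀ h2]
    linarith
  -- `r <= C0^3 y^4`
  have hry : (r : ℝ) ≤ C0 ^ 3 * (y : ℝ) ^ 4 := by
    have h1 := hA2.upp
    have h2 := hA1.upp
    have h3 : (s : ℝ) ^ 2 ≤ (C0 * (y : ℝ) ^ 2) ^ 2 := pow_le_pow_left₀ hspos.le h2 2
    calc (r : ℝ) ≤ C0 * s ^ 2 := h1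
      _ ≤ C0 * (C0 * (y : ℝ) ^ 2) ^ 2 := mul_le_mul_of_nonneg_left h3 (by linarith)
      _ = C0 ^ 3 * (y : ℝ) ^ 4 := by ring
  have hvr : v ≤ (r : ℝ) ^ (-(9 / 200) : ℝ) := by
    have h1 : (r : ℝ) ^ (9 / 200 : ℝ) ≤ C0 ^ (27 / 200 : ℝ) * (y : ℝ) ^ (36 / 200 : ℝ) := by
      have h2 := Real.rpow_le_rpow hrpos.le hry (by norm_num : (0 : ℝ) ≤ 9 / 200)
      rw [Real.mul_rpow (by positivity) (by positivity), ← Real.rpow_natCast C0 3,
        ← Real.rpow_natCast (y : ℝ) 4, ← Real.rpow_mul (by linarith),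
        ← Real.rpow_mul hypos.le] at h2
      norm_num at h2 ⊢
      exact h2
    have h3 := hy1 y hyy1
    have h4 : 0 < (r : ℝ) ^ (9 / 200 : ℝ) := by positivity
    have h5 : 0 < (y : ℝ) ^ (1 / 4 : ℝ) := by positivity
    rw [Real.rpow_neg hrpos.le, hv, Real.rpow_neg hypos.le, ← div_eq_mul_inv, ← one_div,
      div_le_div_iff₀ h5 h4, one_mul]
    have h6 : (y : ℝ) ^ (1 / 4 : ℝ) = (y : ℝ) ^ (7 / 100 : ℝ) * (y : ℝ) ^ (36 / 200 : ℝ) := by
      rw [← Real.rpow_add hypos]; norm_num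
    rw [h6]
    calc K6 * (r : ℝ) ^ (9 / 200 : ℝ)
        ≤ K6 * (C0 ^ (27 / 200 : ℝ) * (y : ℝ) ^ (36 / 200 : ℝ)) :=
          mul_le_mul_of_nonneg_left h1 (by linarith)
      _ = K6 * C0 ^ (27 / 200 : ℝ) * (y : ℝ) ^ (36 / 200 : ℝ) := by ring
      _ ≤ (y : ℝ) ^ (7 / 100 : ℝ) * (y : ℝ) ^ (36 / 200 : ℝ) :=
          mul_le_mul_of_nonneg_right h3 (by positivity)
  -- the window
  set D : ℝ := (s : ℝ) ^ (-(3 / 2) : ℝ) with hD
  have hD0 : (r : ℝ) ^ (-(4 / 5) : ℝ) ≤ D := by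
    have h1 : (s : ℝ) ^ (8 / 5 : ℝ) ≤ C0 ^ (4 / 5 : ℝ) * (r : ℝ) ^ (4 / 5 : ℝ) := by
      have h2 := Real.rpow_le_rpow (by positivity) hA2.low (by norm_num : (0 : ℝ) ≤ 4 / 5)
      rw [Real.mul_rpow (by linarith) hrpos.le, ← Real.rpow_natCast (s : ℝ) 2,
        ← Real.rpow_mul hspos.le] at h2
      norm_num at h2 ⊢
      exact h2
    have h3 := hy2 s hsy2
    have h4 : 0 < (r : ℝ) ^ (4 / 5 : ℝ) := by positivity
    have h5 : 0 < (s : ℝ) ^ (3 / 2 : ℝ) := by positivity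
    rw [hD, Real.rpow_neg hrpos.le, Real.rpow_neg hspos.le]
    refine inv_anti₀ h5 ?_
    have h6 : (s : ℝ) ^ (8 / 5 : ℝ) = (s : ℝ) ^ (1 / 10 : ℝ) * (s : ℝ) ^ (3 / 2 : ℝ) := by
      rw [← Real.rpow_add hspos]; norm_num
    rw [h6] at h1
    have h7 : C0 ^ (4 / 5 : ℝ) * (s : ℝ) ^ (3 / 2 : ℝ)
        ≤ C0 ^ (4 / 5 : ℝ) * (r : ℝ) ^ (4 / 5 : ℝ) :=
      (mul_le_mul_of_nonneg_right h3 h5.le).trans h1
    exact le_of_mul_le_mul_left h7 (by positivity)
  have hD16 : D ≤ 16 := by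
    have : D ≤ 1 := Real.rpow_le_one_of_one_le_of_nonpos hs1' (by norm_num)
    linarith
  -- no spectrum near E
  have hout : ∀ (θ : ℝ) (ι : Type) [Fintype ι] (w : OrthonormalBasis ι ℂ (Rg (M * r)))
      (ew : ι → ℝ), IsEB (Tr (pr / r) θ (M * r)) w ew → ∀ j : ι, e1 < |ew j - E| := by
    intro θ ι _ w ew hw j
    obtain ⟨h1, -⟩ := hF7 pr r M θ ι w ew hA3.cop hr4 hw j
    by_contra hlt
    push Not at hlt
    have h2 := hcon (ew j) (by rw [abs_sub_comm]; exact hlt)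
    linarith
  have hEbig : 4 ≤ |(Dl pr r).eval E| := by
    have := hcon E (by rw [sub_self, abs_zero]; exact he1pos.le)
    linarith
  set ub : ℝ := (r : ℝ) ^ (-(1 / 250) : ℝ) with hub
  have hub0 : 0 < ub := by positivity
  have hub1 : ub ≤ 1 := Real.rpow_le_one_of_one_le_of_nonpos hr1' (by norm_num)
  -- the local comparison lemma
  have hloc : ∀ a : ℕ, ‖1 - ex (r * θ a)‖ ≤ 2 * (1 - ub) →
      ‖(cut r L 0 (fun k => ext q 1 (u i) (((a + o a : ℕ) : ℤ) + k)) : Rg (M * r))‖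
      ≤ (1 / (2 * Real.sqrt (J + 5))) *
        ‖(cut r L (J + 2) (fun k => ext q 1 (u i) (((a + o a : ℕ) : ℤ) + k)) : Rg (M * r))‖ := by
    intro a hgood
    obtain ⟨hoa, hθa, hpha⟩ := hph a
    obtain ⟨⟨w, ew, hw⟩, -⟩ := hB4 (M * r) (rb (pr / r) (θ a) (M * r))
    replace hw : IsEB (Tr (pr / r) (θ a) (M * r)) w ew := hw
    have hphase' : (((a + o a : ℕ) : ℤ) : ℝ) * (pq / q) = θ a + m a := by
      push_cast at hpha ⊢
      linarith
    have hlop := lop_shift hF1 hH7 hu i ((a + o a : ℕ) : ℤ) (θ a) (m a) hphase'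
    have hVH := hK6' py y ps s pr r M (θ a) E (Fin (M * r)) w ew hA1 hA2 hKy1 hNH hw
    have hcmp := hs0 pr r L M (pq / q) (θ a) E E
      (fun k => ext q 1 (u i) (((a + o a : ℕ) : ℤ) + k)) (Fin (M * r)) w ew e1 D v hr0 hA3.cop
      hL hM hflux hθa (by linarith) hlop hw
      (Real.rpow_le_rpow_of_exponent_le hr1' (by norm_num))
      (by
        have h1 : (1 : ℝ) / r = (r : ℝ) ^ (-1 : ℝ) := by rw [Real.rpow_neg_one, one_div]
        rw [h1]
        exact Real.rpow_le_rpow_of_exponent_le hr1' (by norm_num))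
      hD0 hD16 hv0 hv1
      (by
        have h2 : e1 * (r : ℝ) ^ (-(1 / 50 / 4) : ℝ)
            = (r : ℝ) ^ (-2 + 1 / 50 : ℝ) * (r : ℝ) ^ (-(9 / 200) : ℝ) := by
          rw [he1, ← Real.rpow_add hrpos, ← Real.rpow_add hrpos]; norm_num
        rw [h2]
        exact mul_le_mul_of_nonneg_left hvr (by positivity))
      hVH
      (by
        refine omh hF4 hE4 (R := (r : ℝ) ^ (1 / 250 : ℝ)) (T := (r : ℝ) ^ (1 + 1 / 200 : ℝ))
          hA3.cop hr4 hw
          (hmu (θ a) hθa) hmu0 hroots4 (by linarith) he1pos (by positivity) (by positivity)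
          (kk r) (kk_pow r (by omega) (Real.rpow_le_rpow_of_exponent_le hr1' (by norm_num))) ?_ ?_
        · have h1 := hs3 r hr3
          have h2 : (r : ℝ) ^ (1 + 3 * (1 / 50) / 4 : ℝ)
              = (r : ℝ) ^ (1 / 250 : ℝ) * (r : ℝ) ^ (1 + 1 / 200 : ℝ) * r ^ (3 / 500 : ℝ) := by
            rw [← Real.rpow_add hrpos, ← Real.rpow_add hrpos]; congr 1; norm_num
          rw [h2]
          have h3 := mul_le_mul_of_nonneg_left h1
            (by positivity : 0 ≤ (r : ℝ) ^ (1 / 250 : ℝ) * (r : ℝ) ^ (1 + 1 / 200 : ℝ))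
          linarith
        · intro d hd _
          have hd0 : 0 < d := he1pos.trans_le hd
          refine ⟨fun t ht => ?_, fun d' hd' => hlight d' (hd.trans hd')⟩
          have h5 := hD8 r (Dl pr r) hdisc E d ub t hub0.le hub1 hd0.le hEbig
            (by linarith)
          have h6 : (r : ℝ) ^ (1 / 250 : ℝ) * ub = 1 := by
            rw [hub, ← Real.rpow_add hrpos]; norm_num
          have h7 := mul_le_mul_of_nonneg_left h5 (by positivity : 0 ≤ (r : ℝ) ^ (1 / 250 : ℝ))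
          rw [← mul_assoc, h6, one_mul] at h7
          exact h7)
      (by rw [sub_self, abs_zero]; positivity) (by rw [sub_self, abs_zero]; positivity)
    rw [norm_wout hG1 _ w ew hw E e1 (hout (θ a) (Fin (M * r)) w ew hw)] at hcmp
    exact hcmp
  -- sum over the centres
  have hMN : 6 * L * r ≤ M * r := by
    rw [hM]
    nlinarith [Nat.zero_le (J * L * r), Nat.zero_le (L * r)]
  refine sum_contra hH8 (s := r) (L := L) (J := J) (q := q) (N := M * r) (u i)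
    (u.orthonormal.1 i) o (by omega) hL1 (fun a => (hph a).1) hMN
    (1 / (2 * Real.sqrt (J + 5))) ?_
    ((Finset.range q).filter (fun a => 2 * (1 - ub) < ‖1 - ex (r * θ a)‖))
    (Finset.filter_subset _ _) ?_ (fun a ha => hloc a ?_)
  · have h1 : Real.sqrt ((J : ℝ) + 5) ^ 2 = J + 5 := Real.sq_sqrt (by positivity)
    rw [div_pow, mul_pow, h1]
    field_simp
    norm_num
  · refine le_trans (le_of_eq ?_) hbadsum
    refine Finset.sum_congr rfl fun a _ => ?_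
    exact cut_norm_eq hH10 r L 0 (M * r) N _ (by omega) hL1 (by linarith) (by linarith)
  · rw [Finset.mem_sdiff, Finset.mem_filter] at ha
    by_contra hlt
    push Not at hlt
    exact ha.2 ⟨ha.1, hlt⟩

end Pool.Agent.H87.AM
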